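import Mathlib

set_option autoImplicit false

namespace Pool.Agent.H.MP_a83194_lc

/-- `ann φ ψ = [!φ]ψ`, `add φ ψ = [+φ]ψ`, `del φ ψ = [-φ]ψ`; `rea φ ψ` is realization of `φ`. -/
inductive Fm
  | atom (n : ℕ)
  | neg (φ : Fm)
  | and (φ ψ : Fm)
  | K (φ : Fm)
  | E (φ : Fm)
  | ann (φ ψ : Fm)
  | add (φ ψ : Fm)
  | del (φ ψ : Fm)
  | rea (φ ψ : Fm)

/-- Truth at `w` in the submodel with the worlds in `A` and awareness sets `S`. -/
def Sat {W : Type} (r : W → W → Prop) (V : ℕ → W → Prop) :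
    Fm → (W → Prop) → (W → Fm → Prop) → W → Prop
  | .atom n, _, _, w => V n w
  | .neg φ, A, S, w => ¬ Sat r V φ A S w
  | .and φ ψ, A, S, w => Sat r V φ A S w ∧ Sat r V ψ A S w
  | .K φ, A, S, w => ∀ v, A v → r w v → Sat r V φ A S v
  | .E φ, _, S, w => S w φ
  | .ann φ ψ, A, S, w => Sat r V φ A S w → Sat r V ψ (fun v => A v ∧ Sat r V φ A S v) S w
  | .add φ ψ, A, S, w => Sat r V ψ A (fun v χ => S v χ ∨ χ = φ) w
  | .del φ ψ, A, S, w => Sat r V ψ A (fun v χ => S v χ ∧ χ ≠ φ) w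
  | .rea φ ψ, A, S, w => (∀ v, A v → r w v → Sat r V φ A S v) →
      Sat r V ψ A (fun v χ => S v χ ∨ χ = φ) w

def Valid (φ : Fm) : Prop :=
  ∀ (W : Type) (r : W → W → Prop) (V : ℕ → W → Prop) (S : W → Fm → Prop), Equivalence r →
    (∀ u v, r u v → S u = S v) → ∀ w, Sat r V φ (fun _ => True) S w

def Fm.subst (σ : ℕ → Fm) : Fm → Fm
  | .atom n => σ n
  | .neg φ => .neg (φ.subst σ)
  | .and φ ψ => .and (φ.subst σ) (ψ.subst σ)
  | .K φ => .K (φ.subst σ)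
  | .E φ => .E (φ.subst σ)
  | .ann φ ψ => .ann (φ.subst σ) (ψ.subst σ)
  | .add φ ψ => .add (φ.subst σ) (ψ.subst σ)
  | .del φ ψ => .del (φ.subst σ) (ψ.subst σ)
  | .rea φ ψ => .rea (φ.subst σ) (ψ.subst σ)

def Fm.code : Fm → ℕ
  | .atom n => 9 * n
  | .neg φ => 9 * φ.code + 1
  | .K φ => 9 * φ.code + 2
  | .E φ => 9 * φ.code + 3
  | .and φ ψ => 9 * Nat.pair φ.code ψ.code + 4
  | .ann φ ψ => 9 * Nat.pair φ.code ψ.code + 5
  | .add φ ψ => 9 * Nat.pair φ.code ψ.code + 6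
  | .del φ ψ => 9 * Nat.pair φ.code ψ.code + 7
  | .rea φ ψ => 9 * Nat.pair φ.code ψ.code + 8

end Pool.Agent.H.MP_a83194_lc
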