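import Pool.Agent.H.MP_a83194_lc.A

set_option autoImplicit false

namespace Pool.Agent.H.MP_a83194_lc

variable {W Θ : Type}

def S1 (V : ℕ → W → Prop) : Fm → (W → Prop) → (Fm → Prop) → W → Prop
  | .atom n, _, _, w => V n w
  | .neg φ, A, S, w => ¬ S1 V φ A S w
  | .and φ ψ, A, S, w => S1 V φ A S w ∧ S1 V ψ A S w
  | .K φ, A, S, _ => ∀ v, A v → S1 V φ A S v
  | .E φ, _, S, _ => S φ
  | .ann φ ψ, A, S, w => S1 V φ A S w → S1 V ψ (fun v => A v ∧ S1 V φ A S v) S w
  | .add φ ψ, A, S, w => S1 V ψ A (fun χ => S χ ∨ χ = φ) w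
  | .del φ ψ, A, S, w => S1 V ψ A (fun χ => S χ ∧ χ ≠ φ) w
  | .rea φ ψ, A, S, w => (∀ v, A v → S1 V φ A S v) → S1 V ψ A (fun χ => S χ ∨ χ = φ) w

lemma sat_s1 {r : W → W → Prop} (e : Equivalence r) (V : ℕ → W → Prop) (w₀ : W) (φ : Fm)
    (A B : W → Prop) (S : W → Fm → Prop) (T : Fm → Prop) (a : ∀ v, B v ↔ A v ∧ r w₀ v)
    (b : ∀ v, r w₀ v → S v = T) (w : W) (c : r w₀ w) : Sat r V φ A S w ↔ S1 V φ B T w := by
  have k {P Q : W → Prop} {A B : W → Prop} (a : ∀ v, B v ↔ A v ∧ r w₀ v) {w : W} (c : r w₀ w)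
      (h : ∀ w, r w₀ w → (P w ↔ Q w)) : (∀ v, A v → r w v → P v) ↔ ∀ v, B v → Q v :=
    forall_congr' fun v => by
      rw [a]
      exact ⟨fun i j => (h v j.2).1 (i j.1 (e.trans (e.symm c) j.2)),
        fun i j l => (h v (e.trans c l)).2 (i ⟨j, e.trans c l⟩)⟩
  induction φ generalizing A B S T w with
  | atom => rfl
  | neg φ ih => exact not_congr (ih A B S T a b w c)
  | and φ ψ ih ih' => exact and_congr (ih A B S T a b w c) (ih' A B S T a b w c)
  | K φ ih => exact k a c (ih A B S T a b)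
  | E φ => simp only [Sat, S1, b w c]
  | ann φ ψ ih ih' =>
    refine imp_congr (ih A B S T a b w c) (ih' _ _ S T (fun v => ?_) b w c)
    rw [a, and_right_comm]
    exact and_congr_left fun i => and_congr_right fun _ => (ih A B S T a b v i).symm
  | add φ ψ _ ih | del φ ψ _ ih => exact ih A B _ _ a (fun v i => by rw [b v i]) w c
  | rea φ ψ ih ih' =>
    exact imp_congr (k a c (ih A B S T a b)) (ih' A B _ _ a (fun v i => by rw [b v i]) w c)

lemma valid_iff (φ : Fm) :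
    Valid φ ↔ ∀ (W : Type) (V : ℕ → W → Prop) A S w, A w → S1 V φ A S w :=
  ⟨fun h W V A S w a => (sat_s1 (r := fun u v => A u ↔ A v) ⟨fun _ => .rfl, .symm, .trans⟩ V w φ _ A
      (fun _ => S) S (by simp [a]) (fun _ _ => rfl) w .rfl).1
      (h W _ V _ ⟨fun _ => .rfl, .symm, .trans⟩ (fun _ _ _ => rfl) w),
    fun h W r V S e a w => (sat_s1 e V w φ _ (r w) S (S w) (by simp) (fun v i => (a w v i).symm) w
      (e.refl w)).2 (h W V _ _ w (e.refl w))⟩

def c1 (c : ℕ) : ℕ := if c % 9 < 4 then c / 9 else (c / 9).unpair.1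

def c2 (c : ℕ) : ℕ := if c % 9 < 4 then c / 9 else (c / 9).unpair.2

def mk : ℕ → Fm → Fm → Fm
  | 1, φ, _ => .neg φ
  | 2, φ, _ => .K φ
  | 3, φ, _ => .E φ
  | 4, φ, ψ => .and φ ψ
  | 5, φ, ψ => .ann φ ψ
  | 6, φ, ψ => .add φ ψ
  | 7, φ, ψ => .del φ ψ
  | _, φ, ψ => .rea φ ψ

lemma dm (q r : ℕ) (h : r < 9) : (9 * q + r) % 9 = r ∧ (9 * q + r) / 9 = q := by omega

lemma shape (φ : Fm) (h : φ.code % 9 ≠ 0) : ∃ α β : Fm, α.code = c1 φ.code ∧ β.code = c2 φ.code ∧
    α.code < φ.code ∧ β.code < φ.code ∧ φ = mk (φ.code % 9) α β ∧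
    ∀ σ, φ.subst σ = mk (φ.code % 9) (α.subst σ) (β.subst σ) := by
  cases φ with
  | atom n => simp [Fm.code] at h
  | neg α | K α | E α => exact ⟨α, α, by simp [Fm.code, c1, c2, dm, mk, Fm.subst]; omega⟩
  | and α β | ann α β | add α β | del α β | rea α β =>
    have := Nat.left_le_pair α.code β.code
    have := Nat.right_le_pair α.code β.code
    exact ⟨α, β, by simp [Fm.code, c1, c2, dm, mk, Fm.subst]; omega⟩

lemma mk_inj {r s : ℕ} {α β γ δ : Fm} (a : r ≠ 0) (b : r < 9) (c : s ≠ 0) (d : s < 9)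
    (e : r < 4 → α = β) (f : s < 4 → γ = δ) (h : mk r α β = mk s γ δ) : r = s ∧ α = γ ∧ β = δ := by
  interval_cases r <;> interval_cases s <;> simp_all [mk]

lemma mk_lt {r : ℕ} {α β : Fm} (a : r ≠ 0) (b : r < 9) (e : r < 4 → α = β) :
    α.code < (mk r α β).code ∧ β.code < (mk r α β).code := by
  have := Nat.left_le_pair α.code β.code
  have := Nat.right_le_pair α.code β.code
  interval_cases r <;> simp_all [mk, Fm.code] <;> omega

lemma code_surj (n : ℕ) : ∃ φ : Fm, φ.code = n := by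
  induction n using Nat.strong_induction_on with
  | _ n ih =>
    obtain ⟨q, r, l, rfl⟩ : ∃ q r, r < 9 ∧ n = 9 * q + r :=
      ⟨n / 9, n % 9, Nat.mod_lt _ (by omega), (Nat.div_add_mod n 9).symm⟩
    rcases r.eq_zero_or_pos with rfl | h
    · exact ⟨.atom q, rfl⟩
    obtain ⟨φ, a⟩ := ih q (by omega)
    obtain ⟨φ₁, d⟩ := ih q.unpair.1 (by have := q.unpair_left_le; omega)
    obtain ⟨φ₂, e⟩ := ih q.unpair.2 (by have := q.unpair_right_le; omega)
    interval_cases r
    exacts [⟨.neg φ, by simp [Fm.code, a]⟩, ⟨.K φ, by simp [Fm.code, a]⟩,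
      ⟨.E φ, by simp [Fm.code, a]⟩, ⟨.and φ₁ φ₂, by simp [Fm.code, d, e]⟩,
      ⟨.ann φ₁ φ₂, by simp [Fm.code, d, e]⟩, ⟨.add φ₁ φ₂, by simp [Fm.code, d, e]⟩,
      ⟨.del φ₁ φ₂, by simp [Fm.code, d, e]⟩, ⟨.rea φ₁ φ₂, by simp [Fm.code, d, e]⟩]

lemma code_inj (φ ψ : Fm) (h : φ.code = ψ.code) : φ = ψ := by
  induction φ generalizing ψ with
  | atom a => cases ψ <;> simp only [Fm.code] at h <;> first | omega | (congr 1; omega)
  | neg φ ih | K φ ih | E φ ih =>
    cases ψ <;> simp only [Fm.code] at h <;> first | omega | exact congrArg _ (ih _ (by omega))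
  | and φ φ' ih ih' | ann φ φ' ih ih' | add φ φ' ih ih' | del φ φ' ih ih' | rea φ φ' ih ih' =>
    cases ψ <;> simp only [Fm.code] at h <;> try omega
    rename_i a b
    obtain ⟨d, e⟩ := Nat.pair_eq_pair.1 (show Nat.pair φ.code φ'.code = Nat.pair a.code b.code by omega)
    rw [ih _ d, ih' _ e]

lemma loc (V : ℕ → W → Prop) {N : ℕ} (φ : Fm) (l : φ.code ≤ N) (A : W → Prop) {S T : Fm → Prop}
    (h : ∀ χ, χ.code < N → (S χ ↔ T χ)) : S1 V φ A S = S1 V φ A T := by
  induction φ generalizing A S T with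
  | atom => rfl
  | neg φ ih | K φ ih =>
    simp only [Fm.code] at l
    ext; simp only [S1, ih (by omega) A h]
  | E φ => ext; exact h φ (by simp only [Fm.code] at l; omega)
  | and φ ψ ih ih' | ann φ ψ ih ih' =>
    have := Nat.left_le_pair φ.code ψ.code
    have := Nat.right_le_pair φ.code ψ.code
    simp only [Fm.code] at l
    ext; simp only [S1, ih (by omega) A h, ih' (by omega) _ h]
  | add φ ψ _ ih | del φ ψ _ ih =>
    have := Nat.right_le_pair φ.code ψ.code
    simp only [Fm.code] at l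
    ext; simp only [S1]
    rw [ih (by omega) A fun χ k => by rw [h χ k]]
  | rea φ ψ ih ih' =>
    have := Nat.left_le_pair φ.code ψ.code
    have := Nat.right_le_pair φ.code ψ.code
    simp only [Fm.code] at l
    ext; simp only [S1, ih (by omega) A h]
    rw [ih' (by omega) A fun χ k => by rw [h χ k]]

def Df (n : ℕ) (P : (Fin n → Prop) → (Fm → Prop) → Fin n → Prop) : Prop :=
  ∃ ψ, ∀ a b w, S1 (fun k (w : Fin n) => k = w) ψ a b w ↔ P a b w

section
variable {n : ℕ} {P Q : (Fin n → Prop) → (Fm → Prop) → Fin n → Prop}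

lemma Df.neg (h : Df n P) : Df n fun a b w => ¬ P a b w :=
  let ⟨ψ, h⟩ := h; ⟨.neg ψ, fun a b w => not_congr (h a b w)⟩

lemma Df.and (h : Df n P) (k : Df n Q) : Df n fun a b w => P a b w ∧ Q a b w :=
  let ⟨ψ, h⟩ := h; let ⟨φ, k⟩ := k; ⟨.and ψ φ, fun a b w => and_congr (h a b w) (k a b w)⟩

lemma Df.of (h : Df n P) (e : ∀ a b w, P a b w ↔ Q a b w) : Df n Q :=
  let ⟨ψ, h⟩ := h; ⟨ψ, fun a b w => (h a b w).trans (e a b w)⟩

lemma Df.const (c : Prop) : Df n fun _ _ _ => c := by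
  have f : Df n fun _ _ _ => False := ⟨.and (.atom 0) (.neg (.atom 0)), fun a b w => by simp [S1]⟩
  by_cases h : c
  · exact f.neg.of (by simp [h])
  · exact f.of (by simp [h])

lemma Df.iff (h : Df n P) (c : Prop) : Df n fun a b w => P a b w ↔ c := by
  by_cases k : c
  · exact h.of (by simp [k])
  · exact h.neg.of (by simp [k])

lemma Df.all {T : Type} [Finite T] {P : T → (Fin n → Prop) → (Fm → Prop) → Fin n → Prop}
    (h : ∀ t, Df n (P t)) : Df n fun a b w => ∀ t, P t a b w := by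
  classical
  cases nonempty_fintype T
  suffices ∀ s : Finset T, Df n fun a b w => ∀ t ∈ s, P t a b w from (this .univ).of (by simp)
  intro s
  induction s using Finset.induction_on with
  | empty => exact (Df.const True).of (by simp)
  | insert t s _ ih => exact ((h t).and ih).of (by simp)

lemma df {k : ℕ} (f : Fin k → Fm) (P : (Fin n → Prop) → (Fin k → Prop) → Fin n → Prop) :
    Df n fun a b w => P a (fun j => b (f j)) w := by
  have e (u : Fin n) : Df n fun _ _ w => u = w := ⟨.atom u, fun a b w => Fin.val_inj⟩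
  have i (u : Fin n) : Df n fun a _ _ => a u :=
    ⟨.neg (.K (.neg (.atom u))), fun a b w => by simp [S1, Fin.val_inj]⟩
  have q (j : Fin k) : Df n fun _ b _ => b (f j) := ⟨.E (f j), fun a b w => .rfl⟩
  refine (Df.all fun z : (Fin n → Prop) × (Fin k → Prop) × Fin n => ((Df.const (P z.1 z.2.1 z.2.2)).and
    ((e z.2.2).and ((Df.all fun u => (i u).iff (z.1 u)).and
      (Df.all fun j => (q j).iff (z.2.1 j))))).neg).neg.of fun a b w => ?_
  simp only [not_forall, not_not]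
  refine ⟨fun ⟨⟨c, d, u⟩, h, i, j, l⟩ => ?_,
    fun h => ⟨(a, _, w), h, rfl, fun _ => .rfl, fun _ => .rfl⟩⟩
  obtain rfl : a = c := funext fun u => propext (j u)
  obtain rfl : (fun j => b (f j)) = d := funext fun u => propext (l u)
  exact i ▸ h

end

def Ms {ι : Type} (F : ι → (W → Prop) → W → Prop) (τ : W → Θ) : ℕ → (W → Prop) → Prop
  | 0, A => ∀ i u v, τ u = τ v → F i A u → F i A v
  | j + 1, A => Ms F τ j A ∧ ∀ i, Ms F τ j fun v => A v ∧ F i A v

variable {ι : Type} {F : ι → (W → Prop) → W → Prop} {τ : W → Θ} {j : ℕ} {A : W → Prop}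

lemma Ms.iff (h : Ms F τ j A) (i : ι) {u v : W} (e : τ u = τ v) : F i A u ↔ F i A v := by
  induction j with
  | zero => exact ⟨h i _ _ e, h i _ _ e.symm⟩
  | succ j ih => exact ih h.1

lemma Ms.mono {Θ' : Type} {τ' : W → Θ'} (k : ∀ u v, τ' u = τ' v → τ u = τ v) (h : Ms F τ j A) :
    Ms F τ' j A := by
  induction j generalizing A with
  | zero => exact fun i u v e => h i u v (k u v e)
  | succ j ih => exact ⟨ih h.1, fun i => ih (h.2 i)⟩

lemma ms_ex [Fintype ι] (j : ℕ) (A : W → Prop) : ∃ (Θ : Type) (_ : Finite Θ) (τ : W → Θ),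
    Nat.card Θ ≤ 2 ^ (Fintype.card ι + 1) ^ (j + 1) ∧ Ms F τ j A := by
  induction j generalizing A with
  | zero =>
    refine ⟨ι → Prop, inferInstance, fun w i => F i A w, ?_, fun i u v e => (congrFun e i).mp⟩
    rw [Nat.card_fun, Nat.card_eq_fintype_card, Nat.card_eq_fintype_card, Fintype.card_prop]
    exact Nat.pow_le_pow_right two_pos (by simp)
  | succ j ih =>
    obtain ⟨Θ, _, τ, a, b⟩ := ih A
    choose T _ σ c d using fun i => ih fun v => A v ∧ F i A v
    refine ⟨Θ × ∀ i, T i, inferInstance, fun w => (τ w, fun i => σ i w), ?_,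
      b.mono fun _ _ => congrArg Prod.fst, fun i => (d i).mono fun _ _ e => congrFun (congrArg Prod.snd e) i⟩
    rw [Nat.card_prod, Nat.card_pi]
    refine (Nat.mul_le_mul a (Finset.prod_le_pow_card _ _ _ fun i _ => c i)).trans_eq ?_
    rw [← pow_mul, ← pow_add, Finset.card_univ]
    congr 1
    ring

lemma rec_ex {α : Type} (F : (k : ℕ) → (Fin k → α) → α) : ∃ ρ : ℕ → α, ∀ k, ρ k = F k fun j => ρ j :=
  ⟨fun k => Nat.strongRec (motive := fun _ => α) (fun k ih => F k fun j => ih j j.2) k, fun k => by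
    beta_reduce; rw [Nat.strongRec_eq]⟩

end Pool.Agent.H.MP_a83194_lc
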