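import Pool.Agent.H.MP_a83194_lc.B
import Pool.Agent.H.MP_61152a_lc.D

set_option autoImplicit false

namespace Pool.Agent.H.MP_a83194_lc

open Pool.Agent.H.MP_61152a_lc (cb tb tb_ex)

def Nx (m n s : ℕ) (f h : ℕ → Prop) : Prop :=
  (∀ u < n, tb s 0 u 0 ↔ f u) ∧ ∀ k ≤ m, tb s 1 k 0 ↔ h k

def bl (m n : ℕ) : ℕ := 2 ^ cb (m + n + 1)

lemma nx_ex (m n : ℕ) (f h : ℕ → Prop) : ∃ s < bl m n, Nx m n s f h := by
  obtain ⟨s, a, b⟩ := tb_ex (m + n + 1) fun i u _ => if i = 0 then f u else h u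
  exact ⟨s, a, fun u i => by simpa using b 0 (by omega) u (by omega) 0 (by omega),
    fun u i => by simpa using b 1 (by omega) u (by omega) 0 (by omega)⟩

def Sh (m : ℕ) (e : ℕ → ℕ) : Prop := ∀ c ≤ m, c % 9 ≠ 0 → e (c1 c) < e c ∧ e (c2 c) < e c ∧
  ∀ d ≤ m, d % 9 ≠ 0 → (e c = e d ↔ c % 9 = d % 9 ∧ e (c1 c) = e (c1 d) ∧ e (c2 c) = e (c2 d))

def Cl (m n r k a b s y w : ℕ) (t : ℕ → ℕ → ℕ → Prop) : Prop :=
  (r = 1 → (t k s w ↔ ¬ t a s w)) ∧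
  (r = 2 → (t k s w ↔ ∀ v < n, tb s 0 v 0 → t a s v)) ∧
  (r = 3 → (t k s w ↔ tb s 1 a 0)) ∧
  (r = 4 → (t k s w ↔ t a s w ∧ t b s w)) ∧
  (r = 5 → Nx m n y (fun u => tb s 0 u 0 ∧ t a s u) (fun j => tb s 1 j 0) →
    (t k s w ↔ (t a s w → t b y w))) ∧
  (r = 6 → Nx m n y (fun u => tb s 0 u 0) (fun j => tb s 1 j 0 ∨ j = a) → (t k s w ↔ t b y w)) ∧
  (r = 7 → Nx m n y (fun u => tb s 0 u 0) (fun j => tb s 1 j 0 ∧ ¬ j = a) → (t k s w ↔ t b y w)) ∧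
  (r = 8 → Nx m n y (fun u => tb s 0 u 0) (fun j => tb s 1 j 0 ∨ j = a) →
    (t k s w ↔ ((∀ v < n, tb s 0 v 0 → t a s v) → t b y w)))

def Ct (m n : ℕ) (e : ℕ → ℕ) (t : ℕ → ℕ → ℕ → Prop) (g : ℕ → ℕ → Prop) : Prop :=
  ∀ s < bl m n, ∀ y < bl m n, ∀ c ≤ m,
    ((∀ u < n, tb s 0 u 0 ↔ tb y 0 u 0) → (g (c + 1) s → g c y) ∧
      ((∀ j < c, tb s 1 j 0 ↔ tb y 1 j 0) → ∀ w < n, t c s w → t c y w)) ∧
    (g (c + 1) s → ∀ d ≤ m, (∀ u < n, tb y 0 u 0 ↔ tb s 0 u 0 ∧ t (e d) s u) → g c y) ∧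
    (c % 9 ≠ 0 → g (e c) s → ∀ w < n, Cl m n (c % 9) (e c) (e (c1 c)) (e (c2 c)) s y w t)

def Cert (m n : ℕ) (e : ℕ → ℕ) (t : ℕ → ℕ → ℕ → Prop) (g : ℕ → ℕ → Prop) : Prop :=
  Sh m e ∧ Ct m n e t g ∧ e m ≤ m ∧ ∃ s < bl m n, ∃ w < n, g (e m) s ∧ tb s 0 w 0 ∧ ¬ t (e m) s w

lemma c_le (c : ℕ) : c1 c ≤ c ∧ c2 c ≤ c ∧ (c % 9 < 4 → c1 c = c2 c) := by
  have := (c / 9).unpair_left_le
  have := (c / 9).unpair_right_le
  unfold c1 c2
  split_ifs <;> omega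

lemma mk_na (r : ℕ) (α β : Fm) (p : ℕ) : mk r α β ≠ .atom p := by
  unfold mk; split <;> simp

lemma mk_add {r : ℕ} {α β γ δ : Fm} (h : mk r α β = .add γ δ) : α = γ := by
  unfold mk at h; split at h <;> simp_all

lemma sound {φ : Fm} {n : ℕ} {e : ℕ → ℕ} {t : ℕ → ℕ → ℕ → Prop} {g : ℕ → ℕ → Prop}
    (C : Cert φ.code n e t g) : ∃ σ, ¬ Valid (φ.subst σ) := by
  classical
  generalize hm : φ.code = m at C
  obtain ⟨H, C, em, s₀, l₀, w₀, k₀, g₀, a₀, r₀⟩ := C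
  let P (k : ℕ) (A : Fin n → Prop) (b : Fin k → Prop) (w : Fin n) : Prop :=
    ∃ s < bl m n, (∀ u : Fin n, tb s 0 u 0 ↔ A u) ∧ (∀ j : Fin k, tb s 1 j 0 ↔ b j) ∧ t k s w
  obtain ⟨ρ, hρ⟩ := rec_ex fun k (f : Fin k → Fm) => if h : ∃ c ≤ m, c % 9 ≠ 0 ∧ e c = k then
    mk (h.choose % 9)
      (f ⟨e (c1 h.choose), (H _ h.choose_spec.1 h.choose_spec.2.1).1.trans_eq h.choose_spec.2.2⟩)
      (f ⟨e (c2 h.choose), (H _ h.choose_spec.1 h.choose_spec.2.1).2.1.trans_eq h.choose_spec.2.2⟩)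
    else .add (.atom k) (df f (P k)).choose
  have ρ1 (c : ℕ) (i : c ≤ m) (j : c % 9 ≠ 0) :
      ρ (e c) = mk (c % 9) (ρ (e (c1 c))) (ρ (e (c2 c))) := by
    have h : ∃ d ≤ m, d % 9 ≠ 0 ∧ e d = e c := ⟨c, i, j, rfl⟩
    obtain ⟨a, b, d⟩ := ((H _ h.choose_spec.1 h.choose_spec.2.1).2.2 c i j).1 h.choose_spec.2.2
    rw [hρ, dif_pos h]
    simp only [a, b, d]
  have ρ2 (k : ℕ) : (∃ c ≤ m, c % 9 ≠ 0 ∧ e c = k) ∨ ∃ θ, ρ k = .add (.atom k) θ ∧ ∀ A S w,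
      S1 (fun k (w : Fin n) => k = w) θ A S w ↔ P k A (fun j => S (ρ j)) w :=
    or_iff_not_imp_left.2 fun h => ⟨_, by rw [hρ, dif_neg h], (df _ (P k)).choose_spec⟩
  have ρ3 (k p : ℕ) : ρ k ≠ .atom p := by
    rcases ρ2 k with ⟨c, i, j, rfl⟩ | ⟨θ, h, -⟩
    · rw [ρ1 c i j]; exact mk_na _ _ _ _
    · simp [h]
  have ρ4 (k l : ℕ) (h : ρ k = ρ l) : k = l := by
    induction k using Nat.strong_induction_on generalizing l with
    | _ k ih =>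
      rcases ρ2 k with ⟨c, i, j, rfl⟩ | ⟨θ, a, -⟩ <;> rcases ρ2 l with ⟨d, i', j', rfl⟩ | ⟨θ', b, -⟩
      · rw [ρ1 c i j, ρ1 d i' j'] at h
        obtain ⟨a, b, f⟩ := mk_inj j (Nat.mod_lt _ (by omega)) j' (Nat.mod_lt _ (by omega))
          (fun h => by rw [(c_le c).2.2 h]) (fun h => by rw [(c_le d).2.2 h]) h
        exact ((H c i j).2.2 d i' j').2 ⟨a, ih _ (H c i j).1 _ b, ih _ (H c i j).2.1 _ f⟩
      · rw [ρ1 c i j, b] at h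
        exact (ρ3 _ _ (mk_add h)).elim
      · rw [ρ1 d i' j', a] at h
        exact (ρ3 _ _ (mk_add h.symm)).elim
      · rw [a, b] at h
        simpa using (Fm.add.inj h).1
  have ρ5 (ψ : Fm) (i : ψ.code ≤ m) : ψ.subst (fun p => ρ (e (9 * p))) = ρ (e ψ.code) := by
    induction h : ψ.code using Nat.strong_induction_on generalizing ψ with
    | _ c ih =>
      subst h
      by_cases j : ψ.code % 9 = 0
      · cases ψ <;> simp only [Fm.code] at j <;> first | omega | rfl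
      obtain ⟨α, β, a, b, d, f, -, k⟩ := shape ψ j
      rw [k, ρ1 _ i j, ih _ d α (by omega) rfl, ih _ f β (by omega) rfl, a, b]
  have gm (k j : ℕ) (i : j ≤ k) (l : k ≤ m) (s : ℕ) (b : s < bl m n) (h : g k s) : g j s := by
    induction i with
    | refl => exact h
    | step _ ih => exact ih (by omega) (((C s b s b _ (by omega)).1 fun _ _ => .rfl).1 h)
  have tr (k : ℕ) (l : k ≤ m) (s : ℕ) (b : s < bl m n) (A : Fin n → Prop) (S : Fm → Prop) (h : g k s)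
      (x : ∀ u : Fin n, tb s 0 u 0 ↔ A u) (z : ∀ j ≤ m, tb s 1 j 0 ↔ S (ρ j)) (w : Fin n) :
      S1 (fun k (w : Fin n) => k = w) (ρ k) A S w ↔ t k s w := by
    induction k using Nat.strong_induction_on generalizing s A S w with
    | _ k ih =>
    rcases ρ2 k with ⟨c, i, j, rfl⟩ | ⟨θ, a, d⟩
    swap
    · rw [a, S1, d]
      simp only [ρ3, or_false]
      refine ⟨fun ⟨y, i, j, q, r⟩ => ((C y i s b k l).1 fun u v => ?_).2 (fun u v => ?_) w w.2 r,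
        fun i => ⟨s, b, x, fun j => z j (by omega), i⟩⟩
      · exact (j ⟨u, v⟩).trans (x ⟨u, v⟩).symm
      · exact (q ⟨u, v⟩).trans (z u (by omega)).symm
    obtain ⟨p, q, -⟩ := H c i j
    have i1 := ih _ p (by omega) s b A S (gm _ _ p.le l s b h) x z
    have i2 := ih _ q (by omega)
    obtain ⟨k, hk⟩ : ∃ k, e c = k + 1 := ⟨e c - 1, by omega⟩
    have D (y : ℕ) (v : y < bl m n) := (C s b y v c i).2.2 j h w w.2
    have K : (∀ v, A v → S1 (fun k (w : Fin n) => k = w) (ρ (e (c1 c))) A S v) ↔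
        ∀ v < n, tb s 0 v 0 → t (e (c1 c)) s v := by simp only [i1, ← x, Fin.forall_iff]
    have U (f : Prop → Prop → Prop) : ∃ y < bl m n, Nx m n y (fun u => tb s 0 u 0)
        (fun j => f (tb s 1 j 0) (j = e (c1 c))) ∧ (S1 (fun k (w : Fin n) => k = w) (ρ (e (c2 c))) A
          (fun χ => f (S χ) (χ = ρ (e (c1 c)))) w ↔ t (e (c2 c)) y w) := by
      obtain ⟨y, v, r⟩ := nx_ex m n (fun u => tb s 0 u 0) fun j => f (tb s 1 j 0) (j = e (c1 c))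
      refine ⟨y, v, r, i2 y v _ _ (gm k _ (by omega) (by omega) y v (((C s b y v k (by omega)).1
        fun u v => (r.1 u v).symm).1 (hk ▸ h))) (fun u => (r.1 u u.2).trans (x u)) (fun j l => ?_) w⟩
      rw [r.2 j l, ← z j l, propext (⟨ρ4 _ _, congrArg ρ⟩ : ρ j = ρ (e (c1 c)) ↔ _)]
    rw [ρ1 c i j]
    have := Nat.mod_lt c (show 0 < 9 by omega)
    generalize c % 9 = r at D j this
    interval_cases r
    · exact (j rfl).elim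
    · exact (not_congr (i1 w)).trans ((D s b).1 rfl).symm
    · exact K.trans ((D s b).2.1 rfl).symm
    · exact (z _ (by omega)).symm.trans ((D s b).2.2.1 rfl).symm
    · exact (and_congr (i1 w) (i2 s b A S (gm _ _ q.le l s b h) x z w)).trans ((D s b).2.2.2.1 rfl).symm
    · obtain ⟨y, v, r⟩ := nx_ex m n (fun u => tb s 0 u 0 ∧ t (e (c1 c)) s u) fun j => tb s 1 j 0
      exact (imp_congr (i1 w) (i2 y v _ S (gm k _ (by omega) (by omega) y v ((C s b y v k (by omega)).2.1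
        (hk ▸ h) _ ((c_le c).1.trans i) r.1)) (fun u => (r.1 u u.2).trans (and_congr (x u) (i1 u).symm))
        (fun j l => (r.2 j l).trans (z j l)) w)).trans ((D y v).2.2.2.2.1 rfl r).symm
    · obtain ⟨y, v, r, f⟩ := U Or
      exact f.trans ((D y v).2.2.2.2.2.1 rfl r).symm
    · obtain ⟨y, v, r, f⟩ := U fun a b => a ∧ ¬ b
      exact f.trans ((D y v).2.2.2.2.2.2.1 rfl r).symm
    · obtain ⟨y, v, r, f⟩ := U Or
      exact (imp_congr K f).trans ((D y v).2.2.2.2.2.2.2 rfl r).symm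
  refine ⟨fun p => ρ (e (9 * p)), fun h => r₀ ((tr _ em s₀ l₀ _ (fun χ => ∃ j, ρ j = χ ∧ tb s₀ 1 j 0) g₀ (fun _ => .rfl)
    (fun j _ => ⟨fun i => ⟨j, rfl, i⟩, fun ⟨_, i, k⟩ => ρ4 _ _ i ▸ k⟩) ⟨w₀, k₀⟩).1 ?_)⟩
  rw [← hm, ← ρ5 φ hm.le]
  exact (valid_iff _).1 h _ _ _ _ _ a₀

end Pool.Agent.H.MP_a83194_lc
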