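import Pool.Agent.H.MP_a83194_lc.C

set_option autoImplicit false

namespace Pool.Agent.H.MP_a83194_lc

open Pool.Agent.H.MP_b6c00a_lc (dg cmpr ot)
open Pool.Agent.H.MP_61152a_lc (cb tb tb_ex p_cb p_tb)

def bd (m : ℕ) : ℕ := 2 ^ ((m + 1) * 2 ^ (m + 1) + 1) ^ (m + 2)

def Chk (m : ℕ) : Prop := ∃ n ≤ bd m, ∃ E < (m + 1) ^ (m + 1), ∃ T < 2 ^ cb (m + 1 + n + bl m n),
  ∃ G < 2 ^ cb (m + 1 + n + bl m n), Cert m n (dg (m + 1) E) (tb T) fun j s => tb G j s 0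

lemma compl {φ : Fm} {σ : ℕ → Fm} (h : ¬ Valid (φ.subst σ)) : Chk φ.code := by
  classical
  generalize hm : φ.code = m
  rw [valid_iff] at h
  push Not at h
  obtain ⟨W, V, A₀, S₀, w₀, a₀, r₀⟩ := h
  choose d hd using code_surj
  have hd' (φ : Fm) : d φ.code = φ := code_inj _ _ (hd _)
  let χ (c : ℕ) := (d c).subst σ
  obtain ⟨E, lE, hE⟩ := cmpr (le_refl (m + 1)) fun c => ((χ c).code : ℚ)
  generalize he : dg (m + 1) E = e at hE
  have el (c : ℕ) : e c ≤ m := he ▸ Nat.le_of_lt_succ (Nat.mod_lt _ (by omega))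
  have e1 (a b : ℕ) (i : a ≤ m) (j : b ≤ m) : e a ≤ e b ↔ (χ a).code ≤ (χ b).code := by
    simpa [ot, Nat.lt_succ_iff, i, j] using congrFun₂ hE a b
  have e2 (a b : ℕ) (i : a ≤ m) (j : b ≤ m) : e a < e b ↔ (χ a).code < (χ b).code :=
    lt_iff_lt_of_le_iff_le (e1 b a j i)
  have e3 (a b : ℕ) (i : a ≤ m) (j : b ≤ m) : e a = e b ↔ χ a = χ b := by
    rw [le_antisymm_iff, e1 a b i j, e1 b a j i, ← le_antisymm_iff]
    exact ⟨code_inj _ _, congrArg _⟩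
  have x1 (c : ℕ) (j : c % 9 ≠ 0) : χ c = mk (c % 9) (χ (c1 c)) (χ (c2 c)) := by
    obtain ⟨α, β, a, b, -, -, -, k⟩ := shape (d c) (by rwa [hd])
    rw [hd] at a b k
    simp only [χ, ← a, ← b, hd', k]
  let Z (z : Fin (m + 1) → Prop) (ψ : Fm) : Prop :=
    (∃ c : Fin (m + 1), χ c = ψ ∧ z c) ∨ (∀ c : Fin (m + 1), χ c ≠ ψ) ∧ S₀ ψ
  let F (i : Fin (m + 1) × (Fin (m + 1) → Prop)) (A : W → Prop) := S1 V (χ i.1) A (Z i.2)
  obtain ⟨Θ, _, τ, lτ, hτ⟩ := ms_ex (F := F) (m + 1) A₀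
  obtain ⟨n, ln, π, p1, p2⟩ : ∃ n ≤ bd m, ∃ π : Fin n → W, (∀ u, A₀ (π u)) ∧
      ∀ v, A₀ v → ∃ u, τ (π u) = τ v := by
    let X := τ '' {v | A₀ v}
    refine ⟨Nat.card X, (Nat.card_le_card_of_injective _ Subtype.val_injective).trans
      (lτ.trans_eq (by simp [bd])), fun u => ((Finite.equivFin X).symm u).2.choose,
      fun u => ((Finite.equivFin X).symm u).2.choose_spec.1, fun v i =>
        ⟨Finite.equivFin X ⟨_, v, i, rfl⟩, ?_⟩⟩
    rw [((Finite.equivFin X).symm _).2.choose_spec.2, Equiv.symm_apply_apply]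
  let A (s : ℕ) (v : W) : Prop := A₀ v ∧ ∃ u : Fin n, tb s 0 u 0 ∧ τ (π u) = τ v
  let S (s : ℕ) := Z fun c => tb s 1 (e c) 0
  have s1 (s c : ℕ) (i : c ≤ m) : S s (χ c) ↔ tb s 1 (e c) 0 :=
    ⟨fun h => h.elim (fun ⟨a, j, k⟩ => (e3 a c (by omega) i).2 j ▸ k)
      fun j => (j.1 ⟨c, by omega⟩ rfl).elim, fun h => .inl ⟨⟨c, by omega⟩, rfl, h⟩⟩
  have s2 (s : ℕ) (ψ : Fm) (i : ∀ c ≤ m, χ c ≠ ψ) : S s ψ ↔ S₀ ψ :=
    ⟨fun h => h.elim (fun ⟨a, j, _⟩ => (i a (by omega) j).elim) And.right,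
      fun h => .inr ⟨fun c => i c (by omega), h⟩⟩
  obtain ⟨T, lT, hT⟩ := tb_ex (m + 1 + n + bl m n) fun k s w =>
    ∃ c ≤ m, e c = k ∧ ∃ h : w < n, S1 V (χ c) (A s) (S s) (π ⟨w, h⟩)
  have t1 (c : ℕ) (i : c ≤ m) (s : ℕ) (l : s < bl m n) (w : ℕ) (j : w < n) :
      tb T (e c) s w ↔ S1 V (χ c) (A s) (S s) (π ⟨w, j⟩) := by
    rw [hT _ (by have := el c; omega) _ (by omega) _ (by omega)]
    exact ⟨fun ⟨a, k, q, _, r⟩ => (e3 a c k i).1 q ▸ r, fun r => ⟨c, i, rfl, j, r⟩⟩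
  obtain ⟨G, lG, hG⟩ := tb_ex (m + 1 + n + bl m n) fun j s _ => Ms F τ j (A s)
  have g1 (j : ℕ) (i : j ≤ m + 1) (s : ℕ) (l : s < bl m n) : tb G j s 0 ↔ Ms F τ j (A s) :=
    hG _ (by omega) _ (by omega) _ (by omega)
  have a1 {s y : ℕ} (h : ∀ u < n, tb s 0 u 0 ↔ tb y 0 u 0) : A s = A y := by
    ext v; simp only [A, h _ (Fin.is_lt _)]
  have f1 {j s : ℕ} (h : Ms F τ j (A s)) (c : ℕ) (i : c ≤ m) {u v : W} (k : τ u = τ v) :
      S1 V (χ c) (A s) (S s) u ↔ S1 V (χ c) (A s) (S s) v :=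
    h.iff (⟨c, by omega⟩, fun c => tb s 1 (e c) 0) k
  have a2 {j s y : ℕ} (l : s < bl m n) (h : Ms F τ j (A s)) (c : ℕ) (i : c ≤ m)
      (k : ∀ u < n, tb y 0 u 0 ↔ tb s 0 u 0 ∧ tb T (e c) s u) :
      A y = fun v => A s v ∧ S1 V (χ c) (A s) (S s) v := by
    ext v
    simp only [A, k _ (Fin.is_lt _), t1 c i s l _ (Fin.is_lt _)]
    exact ⟨fun ⟨a, u, ⟨b, f⟩, g⟩ => ⟨⟨a, u, b, g⟩, (f1 h c i g).1 f⟩,
      fun ⟨⟨a, u, b, g⟩, f⟩ => ⟨a, u, ⟨b, (f1 h c i g).2 f⟩, g⟩⟩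
  refine ⟨n, ln, E, lE, T, lT, G, lG, he ▸ ⟨fun c i j => ?_, fun s l y q c i => ⟨fun r => ⟨?_, ?_⟩,
    fun r b j k => ?_, fun j r w k => ?_⟩, el m, ?_⟩⟩
  · have L := Nat.mod_lt c (show 0 < 9 by omega)
    have := mk_lt (α := χ (c1 c)) (β := χ (c2 c)) j L fun h => by rw [(c_le c).2.2 h]
    have := c_le c
    rw [e2 _ _ (by omega) i, e2 _ _ (by omega) i, x1 c j]
    refine ⟨by omega, by omega, fun b k l => ?_⟩
    have := c_le b
    rw [e3 _ _ i k, e3 _ _ (by omega) (by omega), e3 _ _ (by omega) (by omega), x1 c j, x1 b l]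
    exact ⟨mk_inj j L l (Nat.mod_lt _ (by omega)) (fun h => by rw [(c_le c).2.2 h])
      fun h => by rw [(c_le b).2.2 h], fun ⟨a, b, f⟩ => by rw [a, b, f]⟩
  · beta_reduce
    rw [g1 _ (by omega) s l, g1 _ (by omega) y q, a1 r]
    exact And.left
  · intro j w k
    rw [hT _ (by omega) _ (by omega) _ (by omega), hT _ (by omega) _ (by omega) _ (by omega)]
    rintro ⟨b, f, rfl, _, g⟩
    refine ⟨b, f, rfl, k, ?_⟩
    rwa [← a1 r, ← loc V (χ b) le_rfl (A s) (S := S s) fun ψ o => ?_]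
    by_cases x : ∃ c ≤ m, χ c = ψ
    · obtain ⟨c, x, rfl⟩ := x
      rw [s1 _ _ x, s1 _ _ x, j _ ((e2 _ _ x f).2 o)]
    · push Not at x
      rw [s2 _ _ x, s2 _ _ x]
  · beta_reduce at r ⊢
    rw [g1 _ (by omega) s l] at r
    rw [g1 _ (by omega) y q, a2 l r b j k]
    exact r.2 (⟨b, by omega⟩, fun c => tb s 1 (e c) 0)
  · beta_reduce at r
    rw [g1 _ (by have := el c; omega) s l] at r
    obtain ⟨u, v, -⟩ := c_le c
    have u := u.trans i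
    have v := v.trans i
    have K : (∀ v, A s v → S1 V (χ (c1 c)) (A s) (S s) v) ↔
        ∀ v < n, tb s 0 v 0 → tb T (e (c1 c)) s v :=
      ⟨fun h v a b => (t1 _ u s l v a).2 (h _ ⟨p1 _, ⟨v, a⟩, b, rfl⟩),
        fun h v ⟨_, a, b, f⟩ => (f1 r _ u f).1 ((t1 _ u s l a a.2).1 (h a a.2 b))⟩
    have U (f : Prop → Prop → Prop) (o : ∀ a, f a False ↔ a)
        (h : ∀ k ≤ m, tb y 1 k 0 ↔ f (tb s 1 k 0) (k = e (c1 c))) :
        S y = fun ψ => f (S s ψ) (ψ = χ (c1 c)) := by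
      ext ψ
      by_cases x : ∃ c ≤ m, χ c = ψ
      · obtain ⟨b, x, rfl⟩ := x
        rw [s1 _ _ x, s1 _ _ x, h _ (el _), propext (e3 _ _ x u)]
      · push Not at x
        rw [s2 _ _ x, s2 _ _ x, eq_false (x _ u).symm, o]
    unfold Cl
    rw [t1 c i s l w k, x1 c j, t1 _ u s l w k, t1 _ v s l w k, t1 _ v y q w k, ← K, ← s1 s _ u]
    refine ⟨fun h => by rw [h]; rfl, fun h => by rw [h]; rfl, fun h => by rw [h]; rfl,
      fun h => by rw [h]; rfl, fun h o => ?_, fun h o => ?_, fun h o => ?_, fun h o => ?_⟩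
    · rw [h, a2 l r _ u o.1, U (fun a _ => a) (fun _ => .rfl) o.2]; rfl
    · rw [h, a1 o.1, U Or (by simp) o.2]; rfl
    · rw [h, a1 o.1, U (fun a b => a ∧ ¬ b) (by simp) o.2]; rfl
    · rw [h, a1 o.1, U Or (by simp) o.2]; rfl
  · obtain ⟨s, l, a, b⟩ := nx_ex m n (fun _ => True) fun k => ∃ c ≤ m, e c = k ∧ S₀ (χ c)
    have i : A s = A₀ := by
      ext v
      simp only [A, a _ (Fin.is_lt _), true_and]
      exact and_iff_left_of_imp (p2 v)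
    have j : S s = S₀ := by
      ext ψ
      by_cases x : ∃ c ≤ m, χ c = ψ
      · obtain ⟨c, x, rfl⟩ := x
        rw [s1 _ _ x, b _ (el _)]
        exact ⟨fun ⟨a, k, q, r⟩ => (e3 a c k x).1 q ▸ r, fun r => ⟨c, x, rfl, r⟩⟩
      · push Not at x
        exact s2 _ _ x
    have k (j : ℕ) (h : j ≤ m + 1) : Ms F τ j A₀ := by
      induction h using Nat.decreasingInduction with
      | self => exact hτ
      | of_succ _ _ ih => exact ih.1
    obtain ⟨u, f⟩ := p2 w₀ a₀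
    refine ⟨s, l, u, u.2, (g1 _ (by have := el m; omega) s l).2 (i ▸ k _ (by have := el m; omega)),
      (a u u.2).2 trivial, ?_⟩
    rw [t1 m le_rfl s l u u.2, f1 (i ▸ hτ) m le_rfl f, i, j]
    simpa only [χ, ← hm, hd'] using r₀

open Pool.Agent.Lib.helper21.PR

attribute [local irreducible] Primrec Computable

section
variable {α : Type} [Primcodable α] {f g h k l : α → ℕ}

@[fun_prop] lemma p_bl (a : Primrec f) (b : Primrec g) : Primrec fun x => bl (f x) (g x) := by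
  unfold bl; fun_prop

@[fun_prop] lemma p_dg (a : Primrec f) (b : Primrec g) (c : Primrec h) :
    Primrec fun x => dg (f x) (g x) (h x) := by
  unfold dg; fun_prop

@[fun_prop] lemma p_c1 (a : Primrec f) : Primrec fun x => c1 (f x) := by
  unfold c1; fun_prop

@[fun_prop] lemma p_c2 (a : Primrec f) : Primrec fun x => c2 (f x) := by
  unfold c2; fun_prop

@[fun_prop] lemma p_sh (a : Primrec f) (b : Primrec g) :
    Primrec fun x => cd (Sh (f x) (dg (f x + 1) (g x))) := by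
  unfold Sh; simp only [ne_eq]; fun_prop

@[fun_prop] lemma p_ct (a : Primrec f) (b : Primrec g) (c : Primrec h) (d : Primrec k)
    (e : Primrec l) : Primrec fun x =>
      cd (Ct (f x) (g x) (dg (f x + 1) (h x)) (tb (k x)) fun j s => tb (l x) j s 0) := by
  unfold Ct Cl Nx; simp only [ne_eq]; fun_prop

end

theorem dec_sv : ComputablePred fun c => ∃ φ : Fm, φ.code = c ∧ ∀ σ, Valid (φ.subst σ) := by
  have : PrimrecPred fun c => ¬ Chk c := pred (by unfold Chk Cert bd; fun_prop)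
  refine this.computablePred.of_eq fun c => ⟨fun h => ?_, ?_⟩
  · obtain ⟨φ, rfl⟩ := code_surj c
    exact ⟨φ, rfl, fun σ => by_contra fun k => h (compl k)⟩
  · rintro ⟨φ, rfl, h⟩ ⟨n, -, E, -, T, -, G, -, C⟩
    obtain ⟨σ, k⟩ := sound C
    exact k (h σ)

end Pool.Agent.H.MP_a83194_lc
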